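import Mathlib

/-!
# Termwise homogenization of infinite sums of Brooks quasimorphisms

For every free group of finite rank at least two there is an alternating coefficient map `α`,
supported on non-self-overlapping words, such that the infinite sum of the homogenized Brooks
quasimorphisms is a quasimorphism (it is identically zero), while the infinite sum of the Brooks
quasimorphisms themselves is not a quasimorphism.

The coefficient map takes the value `1` on the words `a^{±n} s` and `-1` on the words `s a^{±n}`,
where `n ≥ 1` and `s` is a letter different from `a` and `a⁻¹`.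
-/

open Filter Topology

namespace Pool.Agent.Results.MP_c1a8be_al.TermwiseFails

open Classical in
/-- The number of occurrences of the word `w` as a subword (block of consecutive letters) of the
word `l`: the number of end segments of `l` that begin with `w`. -/
noncomputable def occ {L : Type*} (w l : List L) : ℕ :=
  l.tails.countP (fun t => decide (w <+: t))

variable {X : Type} [DecidableEq X]

set_option linter.unusedSectionVars false

/-- Non-self-overlapping words. -/
def NonSelfOverlapping (w : FreeGroup X) : Prop :=
  w ≠ 1 ∧ ∀ p : List (X × Bool), p ≠ [] → p <+: w.toWord → p <:+ w.toWord → p = w.toWord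

/-- The small Brooks quasimorphism of a non-self-overlapping word `w`. -/
noncomputable def brooks (w g : FreeGroup X) : ℝ :=
  (occ w.toWord g.toWord : ℝ) - (occ w⁻¹.toWord g.toWord : ℝ)

/-- Homogenization. -/
noncomputable def homog (φ : FreeGroup X → ℝ) (g : FreeGroup X) : ℝ :=
  limUnder atTop (fun n : ℕ => φ (g ^ n) / n)

/-- Quasimorphisms. -/
def IsQuasimorphism (φ : FreeGroup X → ℝ) : Prop :=
  ∃ D : ℝ, ∀ g h : FreeGroup X, |φ g + φ h - φ (g * h)| ≤ D

/-- Alternating coefficient maps. -/
def Alternating (α : FreeGroup X → ℝ) : Prop := ∀ w, α w⁻¹ = - α w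

/-- Coefficient maps supported on the non-self-overlapping words. -/
def SupportedOnN (α : FreeGroup X → ℝ) : Prop := ∀ w, ¬ NonSelfOverlapping w → α w = 0

/-- The set `P` contains exactly one of `w`, `w⁻¹` for each non-self-overlapping `w`, and nothing
else. -/
def IsHalf (P : Set (FreeGroup X)) : Prop :=
  (∀ w ∈ P, NonSelfOverlapping w) ∧ ∀ w, NonSelfOverlapping w → Xor' (w ∈ P) (w⁻¹ ∈ P)

/-- The infinite sum of Brooks quasimorphisms. -/
noncomputable def phi (α : FreeGroup X → ℝ) (P : Set (FreeGroup X)) (g : FreeGroup X) : ℝ :=
  ∑ᶠ w ∈ P, α w * brooks w g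

/-- The infinite sum of homogenized Brooks quasimorphisms. -/
noncomputable def phiTilde (α : FreeGroup X → ℝ) (P : Set (FreeGroup X)) (g : FreeGroup X) : ℝ :=
  ∑ᶠ w ∈ P, α w * homog (brooks w) g

/-! ### Occurrences -/

section occ

variable {L : Type*}

open Classical in
lemma occ_cons (w : List L) (x : L) (l : List L) :
    occ w (x :: l) = (if w <+: x :: l then 1 else 0) + occ w l := by
  unfold occ
  rw [List.tails_cons, List.countP_cons]
  simp only [decide_eq_true_eq]
  ring

lemma occ_nil {w : List L} (hw : w ≠ []) : occ w [] = 0 := by
  unfold occ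
  simp [hw]

lemma occ_le_append {w : List L} (hw : w ≠ []) (l l' : List L) :
    occ w l + occ w l' ≤ occ w (l ++ l') := by
  induction l with
  | nil => simp [occ_nil hw]
  | cons x l ih =>
    rw [List.cons_append, occ_cons, occ_cons]
    have h1 : w <+: x :: l → w <+: x :: (l ++ l') := fun h => by
      rw [← List.cons_append]
      exact h.trans (List.prefix_append _ _)
    by_cases h : w <+: x :: l
    · rw [if_pos h, if_pos (h1 h)]
      omega
    · rw [if_neg h]
      omega

lemma occ_append_le {w : List L} (hw : w ≠ []) (l l' : List L) :
    occ w (l ++ l') ≤ occ w l + occ w l' + min l.length w.length := by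
  classical
  induction l with
  | nil => simp [occ_nil hw]
  | cons x l ih =>
    rw [List.cons_append, occ_cons, occ_cons, List.length_cons]
    by_cases hlen : w.length ≤ l.length + 1
    · have h1 : w <+: x :: (l ++ l') → w <+: x :: l := fun h => by
        rw [← List.cons_append] at h
        exact List.prefix_of_prefix_length_le h (List.prefix_append _ _) (by simpa using hlen)
      have h2 : (if w <+: x :: (l ++ l') then 1 else 0) ≤ (if w <+: x :: l then 1 else 0) := by
        by_cases h : w <+: x :: (l ++ l')
        · rw [if_pos h, if_pos (h1 h)]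
        · rw [if_neg h]; exact Nat.zero_le _
      have h3 : min l.length w.length ≤ min (l.length + 1) w.length := by omega
      omega
    · have h2 : (if w <+: x :: (l ++ l') then 1 else 0) ≤ 1 := by split_ifs <;> omega
      omega

lemma infix_of_occ_pos {w : List L} : ∀ {l : List L}, occ w l ≠ 0 → w <:+: l := by
  intro l
  induction l with
  | nil =>
    intro h
    by_cases hw : w = []
    · subst hw
      exact List.nil_infix
    · rw [occ_nil hw] at h
      exact absurd rfl h
  | cons x l ih =>
    intro h
    rw [occ_cons] at h
    by_cases hp : w <+: x :: l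
    · exact hp.isInfix
    · rw [if_neg hp, zero_add] at h
      exact (ih h).trans (List.suffix_cons x l).isInfix

lemma occ_le_length {w : List L} (hw : w ≠ []) (l : List L) : occ w l ≤ l.length := by
  classical
  induction l with
  | nil => rw [occ_nil hw]; exact Nat.zero_le _
  | cons x l ih =>
    rw [occ_cons, List.length_cons]
    have h2 : (if w <+: x :: l then 1 else 0) ≤ 1 := by split_ifs <;> omega
    omega

/-- The counts in powers of a list grow linearly. -/
lemma exists_lim_power {w : List L} (hw : w ≠ []) (c : List L) :
    ∃ r : ℝ, Tendsto (fun n : ℕ => (occ w (List.replicate n c).flatten : ℝ) / n) atTop (𝓝 r) := by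
  set v : ℕ → ℝ := fun n => (occ w (List.replicate n c).flatten : ℝ) with hv
  have hsub : Subadditive (fun n => v n + w.length) := by
    intro m n
    have h1 : (List.replicate (m + n) c).flatten =
        (List.replicate m c).flatten ++ (List.replicate n c).flatten := by
      rw [List.replicate_add, List.flatten_append]
    have h2 := occ_append_le hw (List.replicate m c).flatten (List.replicate n c).flatten
    have h3 : occ w (List.replicate (m + n) c).flatten ≤ occ w (List.replicate m c).flatten +
        occ w (List.replicate n c).flatten + w.length := by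
      rw [h1]
      exact h2.trans (by gcongr; exact min_le_right _ _)
    have h4 : v (m + n) ≤ v m + v n + w.length := by
      simp only [hv]
      exact_mod_cast h3
    simp only
    linarith
  have hbdd : BddBelow (Set.range fun n : ℕ => (v n + w.length) / n) := by
    refine ⟨0, ?_⟩
    rintro _ ⟨n, rfl⟩
    simp only [hv]
    positivity
  have h1 := hsub.tendsto_lim hbdd
  have h2 : Tendsto (fun n : ℕ => (w.length : ℝ) / n) atTop (𝓝 0) :=
    tendsto_const_div_atTop_nhds_zero_nat _
  have h3 := h1.sub h2
  rw [sub_zero] at h3
  refine ⟨hsub.lim, h3.congr fun n => ?_⟩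
  simp only [hv]
  ring

/-- A word inside a power of a shorter word overlaps itself. -/
lemma border_of_infix {w c : List L} {n : ℕ} (hc : c ≠ []) (hlen : c.length < w.length)
    (h : w <:+: (List.replicate n c).flatten) :
    ∃ p : List L, p ≠ [] ∧ p <+: w ∧ p <:+ w ∧ p ≠ w := by
  set S := (List.replicate n c).flatten with hS
  have hd : 0 < c.length := List.length_pos_iff.2 hc
  -- periodicity
  have hper : ∀ i (hi : i + c.length < S.length), S[i + c.length] = S[i] := by
    intro i hi
    cases n with
    | zero => simp [hS] at hi
    | succ n =>
      have h1 : S = c ++ (List.replicate n c).flatten := by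
        rw [hS, List.replicate_succ, List.flatten_cons]
      have h2 : S = (List.replicate n c).flatten ++ c := by
        rw [hS, List.replicate_succ', List.flatten_concat]
      have hlenS : S.length = c.length + (List.replicate n c).flatten.length := by
        rw [h1, List.length_append]
      have e1 : S[i + c.length]? = (List.replicate n c).flatten[i]? := by
        rw [h1, List.getElem?_append_right (by omega)]
        congr 1
        omega
      have e2 : S[i]? = (List.replicate n c).flatten[i]? := by
        conv_lhs => rw [h2]
        rw [List.getElem?_append_left (by omega)]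
      have e3 : S[i + c.length]? = S[i]? := by rw [e1, e2]
      rw [List.getElem?_eq_getElem hi, List.getElem?_eq_getElem (by omega)] at e3
      exact Option.some.inj e3
  obtain ⟨s, t, hst⟩ := h
  have hlenS : S.length = s.length + w.length + t.length := by
    rw [← hst]; simp; ring
  have hw : ∀ j (hj : j < w.length), w[j] = S[s.length + j]'(by omega) := by
    intro j hj
    have : S[s.length + j]? = w[j]? := by
      rw [← hst, List.append_assoc, List.getElem?_append_right (by omega),
        List.getElem?_append_left (by omega)]
      congr 1
      omega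
    rw [List.getElem?_eq_getElem (by omega), List.getElem?_eq_getElem hj] at this
    exact (Option.some.inj this).symm
  have heq : w.take (w.length - c.length) = w.drop c.length := by
    apply List.ext_getElem
    · simp
    · intro j h1 h2
      rw [List.getElem_take, List.getElem_drop, hw, hw]
      simp only [List.length_take, List.length_drop] at h1 h2
      have := hper (s.length + j) (by omega)
      rw [← this]
      congr 1
      omega
  refine ⟨w.take (w.length - c.length), ?_, List.take_prefix _ _, ?_, ?_⟩
  · intro h0
    have := congrArg List.length h0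
    simp only [List.length_take, List.length_nil] at this
    omega
  · rw [heq]
    exact List.drop_suffix _ _
  · intro h0
    have := congrArg List.length h0
    simp only [List.length_take] at this
    omega

end occ

/-! ### Homogenization of the counts -/

lemma toWord_pow_eq (g : FreeGroup X) : ∃ p c q : List (X × Bool), c.length ≤ g.toWord.length ∧
    ∀ n : ℕ, n ≠ 0 → (g ^ n).toWord = p ++ (List.replicate n c).flatten ++ q := by
  refine ⟨FreeGroup.reduceCyclically.conjugator g.toWord,
    FreeGroup.reduceCyclically g.toWord,
    FreeGroup.invRev (FreeGroup.reduceCyclically.conjugator g.toWord), ?_, ?_⟩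
  · have h := congrArg List.length
      (FreeGroup.reduceCyclically.conj_conjugator_reduceCyclically g.toWord)
    simp only [List.length_append] at h
    omega
  · intro n hn
    rw [FreeGroup.toWord_pow, FreeGroup.reduceCyclically.reduce_flatten_replicate
      FreeGroup.isReduced_toWord, if_neg hn]

lemma exists_kappa (w g : FreeGroup X) (hw : w ≠ 1) :
    ∃ r : ℝ, Tendsto (fun n : ℕ => (occ w.toWord (g ^ n).toWord : ℝ) / n) atTop (𝓝 r) ∧
      (NonSelfOverlapping w → g.toWord.length < w.toWord.length → r = 0) := by
  have hw' : w.toWord ≠ [] := by
    intro h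
    exact hw (FreeGroup.toWord_eq_nil_iff.1 h)
  obtain ⟨p, c, q, hc, hpow⟩ := toWord_pow_eq g
  obtain ⟨r, hr⟩ := exists_lim_power hw' c
  set K : ℕ := occ w.toWord p + occ w.toWord q + 2 * w.toWord.length with hK
  have hbound : ∀ n : ℕ, n ≠ 0 →
      |(occ w.toWord (g ^ n).toWord : ℝ) - occ w.toWord (List.replicate n c).flatten| ≤ K := by
    intro n hn
    rw [hpow n hn]
    have h1 := occ_append_le hw' (p ++ (List.replicate n c).flatten) q
    have h2 := occ_append_le hw' p (List.replicate n c).flatten
    have h3 := occ_le_append hw' (p ++ (List.replicate n c).flatten) q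
    have h4 := occ_le_append hw' p (List.replicate n c).flatten
    have h5 : occ w.toWord (p ++ (List.replicate n c).flatten ++ q) ≤
        occ w.toWord (List.replicate n c).flatten + K := by omega
    have h6 : occ w.toWord (List.replicate n c).flatten ≤
        occ w.toWord (p ++ (List.replicate n c).flatten ++ q) := by omega
    have h5' : (occ w.toWord (p ++ (List.replicate n c).flatten ++ q) : ℝ) ≤
        occ w.toWord (List.replicate n c).flatten + K := by exact_mod_cast h5
    have h6' : (occ w.toWord (List.replicate n c).flatten : ℝ) ≤
        occ w.toWord (p ++ (List.replicate n c).flatten ++ q) := by exact_mod_cast h6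
    rw [abs_le]
    constructor
    · have : (0 : ℝ) ≤ K := by positivity
      linarith
    · linarith
  have hlim : Tendsto (fun n : ℕ => (occ w.toWord (g ^ n).toWord : ℝ) / n) atTop (𝓝 r) := by
    have hz : Tendsto (fun n : ℕ => ((occ w.toWord (g ^ n).toWord : ℝ) -
        occ w.toWord (List.replicate n c).flatten) / n) atTop (𝓝 0) := by
      have hK0 : Tendsto (fun n : ℕ => (K : ℝ) / n) atTop (𝓝 0) :=
        tendsto_const_div_atTop_nhds_zero_nat _
      refine squeeze_zero_norm' ?_ hK0
      filter_upwards [eventually_ne_atTop 0] with n hn
      rw [norm_div, Real.norm_eq_abs, Real.norm_natCast]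
      gcongr
      exact hbound n hn
    have := hz.add hr
    rw [zero_add] at this
    refine this.congr fun n => ?_
    ring
  refine ⟨r, hlim, fun hN hlen => ?_⟩
  have hzero : ∀ n : ℕ, occ w.toWord (List.replicate n c).flatten = 0 := by
    intro n
    by_contra hne
    have hinf := infix_of_occ_pos hne
    by_cases hc0 : c = []
    · subst hc0
      rw [List.flatten_replicate_nil] at hinf
      exact hw' (List.infix_nil.1 hinf)
    · obtain ⟨b, hb1, hb2, hb3, hb4⟩ := border_of_infix hc0 (by omega) hinf
      exact hb4 (hN.2 b hb1 hb2 hb3)
  have : Tendsto (fun n : ℕ => (occ w.toWord (List.replicate n c).flatten : ℝ) / n) atTop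
      (𝓝 0) := by
    simp [hzero]
  exact tendsto_nhds_unique hr this

open Classical in
/-- The asymptotic frequency of `w` in the powers of `g`. -/
noncomputable def kappa (w g : FreeGroup X) : ℝ :=
  if hw : w = 1 then 0 else (exists_kappa w g hw).choose

lemma kappa_tendsto {w : FreeGroup X} (g : FreeGroup X) (hw : w ≠ 1) :
    Tendsto (fun n : ℕ => (occ w.toWord (g ^ n).toWord : ℝ) / n) atTop (𝓝 (kappa w g)) := by
  unfold kappa
  rw [dif_neg hw]
  exact (exists_kappa w g hw).choose_spec.1

lemma kappa_eq_zero {w g : FreeGroup X} (hN : NonSelfOverlapping w)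
    (hlen : g.toWord.length < w.toWord.length) : kappa w g = 0 := by
  unfold kappa
  rw [dif_neg hN.1]
  exact (exists_kappa w g hN.1).choose_spec.2 hN hlen

lemma homog_brooks {w : FreeGroup X} (g : FreeGroup X) (hw : w ≠ 1) :
    homog (brooks w) g = kappa w g - kappa w⁻¹ g := by
  unfold homog
  apply Tendsto.limUnder_eq
  have := (kappa_tendsto g hw).sub (kappa_tendsto g (inv_ne_one.2 hw))
  refine this.congr fun n => ?_
  unfold brooks
  ring

/-! ### Sums over half of the words -/

lemma sum_half {α : FreeGroup X → ℝ} (hα : Alternating α) (hN : SupportedOnN α)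
    {P : Set (FreeGroup X)} (hP : IsHalf P) (y : FreeGroup X → ℝ)
    (hfin : {w | α w * y w ≠ 0}.Finite) :
    ∑ᶠ w ∈ P, α w * (y w - y w⁻¹) = ∑ᶠ w, α w * y w := by
  set f : FreeGroup X → ℝ := fun w => α w * y w with hf
  have hsupp : (Function.support f).Finite := hfin
  have hsupp' : (Function.support (fun w => f w⁻¹)).Finite := by
    have : Function.support (fun w => f w⁻¹) = (fun w => w⁻¹) ⁻¹' (Function.support f) := rfl
    rw [this]
    exact hsupp.preimage inv_injective.injOn
  have h1 : ∀ w, α w * (y w - y w⁻¹) = f w + f w⁻¹ := by
    intro w
    simp only [hf, hα w]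
    ring
  have h2 : ∑ᶠ w ∈ P, α w * (y w - y w⁻¹) = ∑ᶠ w ∈ P, (f w + f w⁻¹) :=
    finsum_mem_congr rfl fun w _ => h1 w
  rw [h2, finsum_mem_add_distrib' (hsupp.subset Set.inter_subset_right)
    (hsupp'.subset Set.inter_subset_right)]
  set Q : Set (FreeGroup X) := {w | w⁻¹ ∈ P} with hQ
  have h3 : ∑ᶠ w ∈ P, f w⁻¹ = ∑ᶠ w ∈ Q, f w := by
    refine finsum_mem_eq_of_bijOn (fun w => w⁻¹) ⟨?_, inv_injective.injOn, ?_⟩ fun w _ => rfl
    · intro w hw
      simpa [hQ] using hw
    · intro w hw
      exact ⟨w⁻¹, hw, inv_inv w⟩
  rw [h3]
  have hdisj : Disjoint P Q := by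
    rw [Set.disjoint_left]
    intro w hw hwQ
    rcases hP.2 w (hP.1 w hw) with h | h
    · exact h.2 hwQ
    · exact h.2 hw
  rw [← finsum_mem_union' hdisj (hsupp.subset Set.inter_subset_right)
    (hsupp.subset Set.inter_subset_right)]
  rw [← finsum_mem_univ f]
  refine finsum_mem_inter_support_eq' f _ _ fun w hw => ?_
  simp only [Set.mem_univ, iff_true]
  by_contra hnot
  have hwN : NonSelfOverlapping w := by
    by_contra hwN
    apply hw
    simp only [hf, hN w hwN, zero_mul]
  rcases hP.2 w hwN with h | h
  · exact hnot (Or.inl h.1)
  · exact hnot (Or.inr h.1)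

/-! ### The coefficient map -/

/-- Words `a^{±(n+1)} s`. -/
def Pos (a : X) (l : List (X × Bool)) : Prop :=
  ∃ (e : Bool) (n : ℕ) (s : X × Bool), s.1 ≠ a ∧ l = List.replicate (n + 1) (a, e) ++ [s]

/-- Words `s a^{±(n+1)}`. -/
def Neg (a : X) (l : List (X × Bool)) : Prop :=
  ∃ (e : Bool) (n : ℕ) (s : X × Bool), s.1 ≠ a ∧ l = s :: List.replicate (n + 1) (a, e)

lemma not_pos_and_neg {a : X} {l : List (X × Bool)} (h1 : Pos a l) (h2 : Neg a l) : False := by
  obtain ⟨e, n, s, _, rfl⟩ := h1
  obtain ⟨e', n', s', hs', h⟩ := h2
  rw [List.replicate_succ, List.cons_append, List.cons.injEq] at h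
  exact hs' (by rw [← h.1])

lemma neg_invRev {a : X} {l : List (X × Bool)} (h : Pos a l) : Neg a (FreeGroup.invRev l) := by
  obtain ⟨e, n, s, hs, rfl⟩ := h
  refine ⟨!e, n, (s.1, !s.2), hs, ?_⟩
  simp [FreeGroup.invRev]

lemma pos_invRev {a : X} {l : List (X × Bool)} (h : Neg a l) : Pos a (FreeGroup.invRev l) := by
  obtain ⟨e, n, s, hs, rfl⟩ := h
  refine ⟨!e, n, (s.1, !s.2), hs, ?_⟩
  simp [FreeGroup.invRev]

open Classical in
/-- The coefficient of a word. -/
noncomputable def coef (a : X) (l : List (X × Bool)) : ℝ :=
  if Pos a l then 1 else if Neg a l then -1 else 0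

lemma coef_pos {a : X} {l : List (X × Bool)} (h : Pos a l) : coef a l = 1 := if_pos h

lemma coef_neg {a : X} {l : List (X × Bool)} (h : Neg a l) : coef a l = -1 := by
  unfold coef
  rw [if_neg fun h' => not_pos_and_neg h' h, if_pos h]

lemma coef_zero {a : X} {l : List (X × Bool)} (h : ¬ Pos a l) (h' : ¬ Neg a l) :
    coef a l = 0 := by
  unfold coef
  rw [if_neg h, if_neg h']

/-- The coefficient map. -/
noncomputable def alpha (a : X) (w : FreeGroup X) : ℝ := coef a w.toWord

lemma alpha_alternating (a : X) : Alternating (alpha a) := by
  intro w
  unfold alpha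
  rw [FreeGroup.toWord_inv]
  by_cases h1 : Pos a w.toWord
  · rw [coef_pos h1, coef_neg (neg_invRev h1)]
  · by_cases h2 : Neg a w.toWord
    · rw [coef_neg h2, coef_pos (pos_invRev h2), neg_neg]
    · rw [coef_zero h1 h2, coef_zero, neg_zero]
      · intro h
        have := neg_invRev h
        rw [FreeGroup.invRev_invRev] at this
        exact h2 this
      · intro h
        have := pos_invRev h
        rw [FreeGroup.invRev_invRev] at this
        exact h1 this

lemma nonself_of_pos {a : X} {w : FreeGroup X} (h : Pos a w.toWord) : NonSelfOverlapping w := by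
  obtain ⟨e, n, s, hs, hl⟩ := h
  refine ⟨?_, ?_⟩
  · rintro rfl
    simp at hl
  · intro p hp h1 h2
    rw [hl] at h1 h2 ⊢
    -- the last letter of `p` is `s`
    obtain ⟨t, ht⟩ := h2
    obtain ⟨t', ht'⟩ := h1
    rcases List.eq_nil_or_concat' p with h0 | ⟨p', x, rfl⟩
    · exact absurd h0 hp
    · have hx : x = s := by
        have := congrArg List.getLast? ht
        rw [← List.append_assoc] at this
        simpa using this
      subst hx
      rcases List.eq_nil_or_concat' t' with h0 | ⟨t'', z, rfl⟩
      · rw [h0, List.append_nil] at ht'
        exact ht'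
      · exfalso
        -- then `s` occurs among the `a`'s
        rw [List.append_assoc, ← List.append_assoc [x], ← List.append_assoc p'] at ht'
        have h5 := (List.append_inj' ht' rfl).1
        have : x ∈ List.replicate (n + 1) (a, e) := by
          rw [← h5]; simp
        rw [List.mem_replicate] at this
        exact hs (by rw [this.2])

lemma nonself_inv {w : FreeGroup X} (h : NonSelfOverlapping w) : NonSelfOverlapping w⁻¹ := by
  refine ⟨inv_ne_one.2 h.1, fun p hp h1 h2 => ?_⟩
  rw [FreeGroup.toWord_inv] at h1 h2 ⊢
  have key1 : ∀ {p l : List (X × Bool)}, p <+: l → FreeGroup.invRev p <:+ FreeGroup.invRev l := by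
    rintro p l ⟨t, rfl⟩
    rw [FreeGroup.invRev_append]
    exact List.suffix_append _ _
  have key2 : ∀ {p l : List (X × Bool)}, p <:+ l → FreeGroup.invRev p <+: FreeGroup.invRev l := by
    rintro p l ⟨t, rfl⟩
    rw [FreeGroup.invRev_append]
    exact List.prefix_append _ _
  have h3 := key1 h1
  have h4 := key2 h2
  rw [FreeGroup.invRev_invRev] at h3 h4
  have h5 := h.2 (FreeGroup.invRev p) (by
    intro h0
    apply hp
    rw [← FreeGroup.invRev_invRev (L₁ := p), h0]
    rfl) h4 h3
  rw [← h5, FreeGroup.invRev_invRev]

lemma alpha_supported (a : X) : SupportedOnN (alpha a) := by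
  intro w hw
  apply coef_zero
  · intro h
    exact hw (nonself_of_pos h)
  · intro h
    have h1 : Pos a w⁻¹.toWord := by
      rw [FreeGroup.toWord_inv]
      exact pos_invRev h
    have := nonself_inv (nonself_of_pos h1)
    rw [inv_inv] at this
    exact hw this

/-! ### The sums of fixed length are bounded -/

open Classical in
/-- `1` if the list starts with `n` equal letters `a^{±1}`. -/
noncomputable def start (a : X) (n : ℕ) (l : List (X × Bool)) : ℝ :=
  if ∃ e : Bool, List.replicate n (a, e) <+: l then 1 else 0

lemma start_nonneg (a : X) (n : ℕ) (l : List (X × Bool)) : 0 ≤ start a n l := by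
  unfold start; split_ifs <;> norm_num

lemma start_le (a : X) (n : ℕ) (l : List (X × Bool)) : start a n l ≤ 1 := by
  unfold start; split_ifs <;> norm_num

lemma replicate_prefix_iff {L : Type*} {n : ℕ} {x : L} {l : List L} :
    List.replicate n x <+: l ↔ n ≤ l.length ∧ ∀ i (h : i < l.length), i < n → l[i] = x := by
  constructor
  · rintro ⟨t, rfl⟩
    refine ⟨by simp, fun i h hi => ?_⟩
    rw [List.getElem_append_left (by simpa using hi)]
    simp
  · rintro ⟨h1, h2⟩
    rw [List.prefix_iff_eq_take]
    apply List.ext_getElem
    · simp [h1]
    · intro i h3 h4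
      simp only [List.length_replicate] at h3
      rw [List.getElem_replicate, List.getElem_take, h2 i (by omega) h3]

/-- The telescoping identity. -/
lemma coef_take (a : X) (n : ℕ) (hn : 1 ≤ n) (x : X × Bool) (l : List (X × Bool))
    (hred : FreeGroup.IsReduced (x :: l)) (hlen : n ≤ l.length) :
    coef a ((x :: l).take (n + 1)) = start a n (x :: l) - start a n l := by
  obtain ⟨k, rfl⟩ : ∃ k, n = k + 1 := ⟨n - 1, by omega⟩
  -- adjacent letters
  have hadj : ∀ i (hi : i + 1 < (x :: l).length), (x :: l)[i].1 = (x :: l)[i + 1].1 →
      (x :: l)[i].2 = (x :: l)[i + 1].2 := by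
    intro i hi
    have := List.isChain_iff_getElem.1 hred i hi
    exact this
  by_cases h1 : ∃ e : Bool, List.replicate (k + 1) (a, e) <+: (x :: l)
  · obtain ⟨e, he⟩ := h1
    have hs1 : start a (k + 1) (x :: l) = 1 := if_pos ⟨e, he⟩
    by_cases h2 : ∃ e : Bool, List.replicate (k + 1) (a, e) <+: l
    · obtain ⟨e', he'⟩ := h2
      have hs2 : start a (k + 1) l = 1 := if_pos ⟨e', he'⟩
      rw [hs1, hs2, sub_self]
      rw [replicate_prefix_iff] at he he'
      have hx : x = (a, e) := he.2 0 (by simp) (by omega)
      -- all letters have first component a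
      apply coef_zero
      · rintro ⟨e'', m, s, hs, hl⟩
        have hlen2 := congrArg List.length hl
        simp only [List.length_take, List.length_cons, List.length_append, List.length_replicate,
          List.length_nil] at hlen2
        have hm : m = k := by omega
        subst hm
        have : s = l[m]'(by omega) := by
          have h3 : ((x :: l).take (m + 1 + 1))[m + 1]? = some s := by
            rw [hl]; simp
          rw [List.getElem?_take_of_lt (by omega)] at h3
          rw [List.getElem?_cons_succ, List.getElem?_eq_getElem (by omega)] at h3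
          exact (Option.some.inj h3).symm
        apply hs
        rw [this, he'.2 m (by omega) (by omega)]
      · rintro ⟨e'', m, s, hs, hl⟩
        rw [List.take_succ_cons, List.cons.injEq] at hl
        apply hs
        rw [← hl.1, hx]
    · have hs2 : start a (k + 1) l = 0 := if_neg h2
      rw [hs1, hs2, sub_zero]
      rw [replicate_prefix_iff] at he
      apply coef_pos
      refine ⟨e, k, l[k]'(by omega), ?_, ?_⟩
      · intro hs
        apply h2
        refine ⟨e, ?_⟩
        rw [replicate_prefix_iff]
        refine ⟨hlen, fun i hi hik => ?_⟩
        by_cases hik' : i < k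
        · exact he.2 (i + 1) (by simp; omega) (by omega)
        · have hik2 : i = k := by omega
          subst hik2
          have h3 : (x :: l)[i]'(by simp; omega) = (a, e) := he.2 i (by simp; omega) (by omega)
          have h4 := hadj i (by simp; omega)
          rw [h3] at h4
          have h5 : (x :: l)[i + 1]'(by simp; omega) = l[i] := rfl
          rw [h5] at h4
          have h6 := h4 hs.symm
          exact Prod.ext hs h6.symm
      · apply List.ext_getElem
        · simp; omega
        · intro i h3 h4
          simp only [List.length_take, List.length_cons] at h3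
          rw [List.getElem_take]
          by_cases hik : i < k + 1
          · rw [List.getElem_append_left (by simpa using hik), List.getElem_replicate]
            exact he.2 i (by simp; omega) hik
          · have hik2 : i = k + 1 := by omega
            subst hik2
            simp
  · have hs1 : start a (k + 1) (x :: l) = 0 := if_neg h1
    by_cases h2 : ∃ e : Bool, List.replicate (k + 1) (a, e) <+: l
    · obtain ⟨e', he'⟩ := h2
      have hs2 : start a (k + 1) l = 1 := if_pos ⟨e', he'⟩
      rw [hs1, hs2, zero_sub]
      rw [replicate_prefix_iff] at he'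
      apply coef_neg
      refine ⟨e', k, x, ?_, ?_⟩
      · intro hs
        apply h1
        refine ⟨e', ?_⟩
        rw [replicate_prefix_iff]
        refine ⟨by simp; omega, fun i hi hik => ?_⟩
        cases i with
        | zero =>
          have h3 : l[0]'(by omega) = (a, e') := he'.2 0 (by omega) (by omega)
          have h4 := hadj 0 (by simp; omega)
          have h5 : (x :: l)[0 + 1]'(by simp; omega) = l[0]'(by omega) := rfl
          rw [h5, h3] at h4
          exact Prod.ext hs (h4 hs)
        | succ i =>
          have h5 : (x :: l)[i + 1]'hi = l[i]'(by simpa using hi) := rfl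
          rw [h5]
          exact he'.2 i _ (by omega)
      · rw [List.take_succ_cons]
        congr 1
        symm
        have h7 := List.prefix_iff_eq_take.1 (replicate_prefix_iff.2 he')
        rw [List.length_replicate] at h7
        exact h7
    · have hs2 : start a (k + 1) l = 0 := if_neg h2
      rw [hs1, hs2, sub_self]
      apply coef_zero
      · rintro ⟨e, m, s, hs, hl⟩
        have hlen2 := congrArg List.length hl
        simp only [List.length_take, List.length_cons, List.length_append, List.length_replicate,
          List.length_nil] at hlen2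
        have hm : m = k := by omega
        subst hm
        apply h1
        refine ⟨e, ?_⟩
        exact (List.prefix_append _ _).trans (hl ▸ List.take_prefix _ _)
      · rintro ⟨e, m, s, hs, hl⟩
        have hlen2 := congrArg List.length hl
        simp only [List.length_take, List.length_cons, List.length_replicate] at hlen2
        have hm : m = k := by omega
        subst hm
        rw [List.take_succ_cons, List.cons.injEq] at hl
        apply h2
        exact ⟨e, hl.2 ▸ List.take_prefix _ _⟩

/-- The finite set of elements of length `n + 1`. -/
noncomputable def sphere [Finite X] (n : ℕ) : Finset (FreeGroup X) :=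
  (((List.finite_length_eq (X × Bool) (n + 1)).preimage
    (FreeGroup.toWord_injective (α := X)).injOn).toFinset)

lemma mem_sphere [Finite X] {n : ℕ} {w : FreeGroup X} :
    w ∈ sphere n ↔ w.toWord.length = n + 1 := by
  simp [sphere]

/-- The sum over the words of length `n + 1`. -/
noncomputable def level [Finite X] (a : X) (n : ℕ) (l : List (X × Bool)) : ℝ :=
  ∑ w ∈ sphere n, alpha a w * (occ w.toWord l : ℝ)

lemma level_bound [Finite X] (a : X) (n : ℕ) (hn : 1 ≤ n) : ∀ l : List (X × Bool),
    FreeGroup.IsReduced l → (l.length ≤ n → level a n l = 0) ∧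
    0 ≤ start a n l - level a n l ∧ start a n l - level a n l ≤ 1 := by
  intro l
  induction l with
  | nil =>
    intro _
    have h0 : level a n ([] : List (X × Bool)) = 0 := by
      unfold level
      apply Finset.sum_eq_zero
      intro w hw
      rw [mem_sphere] at hw
      rw [occ_nil (by intro h; rw [h] at hw; simp at hw)]
      simp
    refine ⟨fun _ => h0, ?_, ?_⟩
    · rw [h0, sub_zero]; exact start_nonneg _ _ _
    · rw [h0, sub_zero]; exact start_le _ _ _
  | cons x l ih =>
    intro hred
    have hred' : FreeGroup.IsReduced l := List.IsChain.of_cons hred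
    obtain ⟨ih1, ih2, ih3⟩ := ih hred'
    classical
    have hrec : level a n (x :: l) = (∑ w ∈ sphere n, alpha a w *
        (if w.toWord <+: x :: l then (1 : ℝ) else 0)) + level a n l := by
      unfold level
      rw [← Finset.sum_add_distrib]
      apply Finset.sum_congr rfl
      intro w _
      rw [occ_cons]
      push_cast
      ring
    by_cases hlen : l.length + 1 ≤ n
    · have h0 : (∑ w ∈ sphere n, alpha a w *
          (if w.toWord <+: x :: l then (1 : ℝ) else 0)) = 0 := by
        apply Finset.sum_eq_zero
        intro w hw
        rw [mem_sphere] at hw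
        rw [if_neg, mul_zero]
        intro h
        have := h.length_le
        rw [hw, List.length_cons] at this
        omega
      have h1 : level a n (x :: l) = 0 := by rw [hrec, h0, ih1 (by omega), zero_add]
      refine ⟨fun _ => h1, ?_, ?_⟩
      · rw [h1, sub_zero]; exact start_nonneg _ _ _
      · rw [h1, sub_zero]; exact start_le _ _ _
    · have hlen' : n ≤ l.length := by omega
      have hredt : FreeGroup.IsReduced ((x :: l).take (n + 1)) := List.IsChain.take hred (n + 1)
      set u : FreeGroup X := FreeGroup.mk ((x :: l).take (n + 1)) with hu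
      have hutw : u.toWord = (x :: l).take (n + 1) := by
        rw [hu, FreeGroup.toWord_mk, hredt.reduce_eq]
      have h0 : (∑ w ∈ sphere n, alpha a w *
          (if w.toWord <+: x :: l then (1 : ℝ) else 0)) = coef a ((x :: l).take (n + 1)) := by
        rw [Finset.sum_eq_single u]
        · rw [if_pos (by rw [hutw]; exact List.take_prefix _ _), mul_one]
          unfold alpha
          rw [hutw]
        · intro w hw hne
          rw [mem_sphere] at hw
          rw [if_neg, mul_zero]
          intro h
          apply hne
          apply FreeGroup.toWord_injective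
          rw [hutw, List.prefix_iff_eq_take.1 h, hw]
        · intro hnot
          exfalso
          apply hnot
          rw [mem_sphere, hutw, List.length_take, List.length_cons]
          omega
      have h1 : level a n (x :: l) = start a n (x :: l) - start a n l + level a n l := by
        rw [hrec, h0, coef_take a n hn x l hred hlen']
      refine ⟨fun h => ?_, ?_, ?_⟩
      · exfalso
        rw [List.length_cons] at h
        omega
      · rw [h1]; linarith
      · rw [h1]; linarith

/-- The frequencies of the words of fixed length sum up to zero. -/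
lemma level_kappa [Finite X] (a : X) (n : ℕ) (hn : 1 ≤ n) (g : FreeGroup X) :
    ∑ w ∈ sphere n, alpha a w * kappa w g = 0 := by
  have h1 : Tendsto (fun k : ℕ => level a n (g ^ k).toWord / k) atTop
      (𝓝 (∑ w ∈ sphere n, alpha a w * kappa w g)) := by
    have : Tendsto (fun k : ℕ => ∑ w ∈ sphere n,
        alpha a w * ((occ w.toWord (g ^ k).toWord : ℝ) / k)) atTop
        (𝓝 (∑ w ∈ sphere n, alpha a w * kappa w g)) := by
      apply tendsto_finset_sum
      intro w hw
      rw [mem_sphere] at hw
      have hw1 : w ≠ 1 := by
        rintro rfl
        simp at hw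
      exact (kappa_tendsto g hw1).const_mul _
    refine this.congr fun k => ?_
    unfold level
    rw [Finset.sum_div]
    apply Finset.sum_congr rfl
    intro w _
    ring
  have h2 : Tendsto (fun k : ℕ => level a n (g ^ k).toWord / k) atTop (𝓝 0) := by
    have h3 : Tendsto (fun k : ℕ => (1 : ℝ) / k) atTop (𝓝 0) :=
      tendsto_const_div_atTop_nhds_zero_nat _
    refine squeeze_zero_norm (fun k => ?_) h3
    rw [norm_div, Real.norm_eq_abs, Real.norm_natCast]
    gcongr
    obtain ⟨_, h4, h5⟩ := level_bound a n hn (g ^ k).toWord FreeGroup.isReduced_toWord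
    have h6 := start_nonneg a n (g ^ k).toWord
    have h7 := start_le a n (g ^ k).toWord
    rw [abs_le]
    constructor <;> linarith
  exact tendsto_nhds_unique h1 h2

lemma length_of_alpha {a : X} {w : FreeGroup X} (h : alpha a w ≠ 0) :
    2 ≤ w.toWord.length := by
  unfold alpha at h
  by_cases h1 : Pos a w.toWord
  · obtain ⟨e, n, s, _, hl⟩ := h1
    rw [hl]
    simp
  · by_cases h2 : Neg a w.toWord
    · obtain ⟨e, n, s, _, hl⟩ := h2
      rw [hl]
      simp
    · exact absurd (coef_zero h1 h2) h

lemma support_kappa [Finite X] (a : X) (g : FreeGroup X) :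
    Function.support (fun w => alpha a w * kappa w g) ⊆
      ((Finset.range (g.toWord.length + 1)).biUnion (fun n => sphere (X := X) n) :
        Finset (FreeGroup X)) := by
  classical
  intro w hw
  rw [Function.mem_support] at hw
  have h1 : alpha a w ≠ 0 := left_ne_zero_of_mul hw
  have h2 : kappa w g ≠ 0 := right_ne_zero_of_mul hw
  have h3 := length_of_alpha h1
  have hN : NonSelfOverlapping w := by
    by_contra hN
    exact h1 (alpha_supported a w hN)
  have h4 : w.toWord.length ≤ g.toWord.length := by
    by_contra h
    exact h2 (kappa_eq_zero hN (by omega))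
  simp only [Finset.coe_biUnion, Set.mem_iUnion, Finset.mem_coe, Finset.mem_range]
  exact ⟨w.toWord.length - 1, by omega, mem_sphere.2 (by omega)⟩

lemma phiTilde_eq_zero [Finite X] (a : X) {P : Set (FreeGroup X)} (hP : IsHalf P)
    (g : FreeGroup X) : phiTilde (alpha a) P g = 0 := by
  classical
  unfold phiTilde
  have h1 : ∑ᶠ w ∈ P, alpha a w * homog (brooks w) g =
      ∑ᶠ w ∈ P, alpha a w * (kappa w g - kappa w⁻¹ g) := by
    refine finsum_mem_congr rfl fun w hw => ?_
    rw [homog_brooks g (hP.1 w hw).1]
  rw [h1, sum_half (alpha_alternating a) (alpha_supported a) hP (fun w => kappa w g)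
    ((Finset.finite_toSet _).subset (support_kappa a g))]
  rw [finsum_eq_sum_of_support_subset _ (support_kappa a g)]
  rw [Finset.sum_biUnion]
  · apply Finset.sum_eq_zero
    intro n _
    by_cases hn : 1 ≤ n
    · exact level_kappa a n hn g
    · have hn0 : n = 0 := by omega
      subst hn0
      apply Finset.sum_eq_zero
      intro w hw
      rw [mem_sphere] at hw
      have : alpha a w = 0 := by
        by_contra h
        have := length_of_alpha h
        omega
      rw [this, zero_mul]
  · intro m _ n _ hmn
    simp only [Function.onFun]
    rw [Finset.disjoint_left]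
    intro w hw1 hw2
    rw [mem_sphere] at hw1 hw2
    omega

/-! ### The unbounded defect -/

lemma support_occ (a : X) (l : List (X × Bool)) :
    {w : FreeGroup X | alpha a w * (occ w.toWord l : ℝ) ≠ 0}.Finite := by
  have hfin : {u : List (X × Bool) | u <:+: l}.Finite := by
    refine ((l.tails.flatMap List.inits).toFinset.finite_toSet).subset ?_
    intro u hu
    simp only [List.coe_toFinset, Set.mem_setOf_eq, List.mem_flatMap, List.mem_tails,
      List.mem_inits]
    obtain ⟨s, t, hst⟩ := hu
    refine ⟨u ++ t, ⟨s, ?_⟩, List.prefix_append _ _⟩
    rw [← List.append_assoc]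
    exact hst
  refine (hfin.preimage (FreeGroup.toWord_injective (α := X)).injOn).subset ?_
  intro w hw
  have h2 : (occ w.toWord l : ℝ) ≠ 0 := right_ne_zero_of_mul hw
  exact infix_of_occ_pos (by exact_mod_cast h2)

/-- The full sum over all words. -/
noncomputable def total (a : X) (l : List (X × Bool)) : ℝ :=
  ∑ᶠ w : FreeGroup X, alpha a w * (occ w.toWord l : ℝ)

lemma phi_eq_total (a : X) {P : Set (FreeGroup X)} (hP : IsHalf P) (g : FreeGroup X) :
    phi (alpha a) P g = total a g.toWord := by
  unfold phi total brooks
  exact sum_half (alpha_alternating a) (alpha_supported a) hP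
    (fun w => (occ w.toWord g.toWord : ℝ)) (support_occ a g.toWord)

open Classical in
lemma total_cons (a : X) (x : X × Bool) (l : List (X × Bool)) :
    total a (x :: l) = (∑ᶠ w : FreeGroup X, alpha a w *
      (if w.toWord <+: x :: l then (1 : ℝ) else 0)) + total a l := by
  unfold total
  rw [← finsum_add_distrib]
  · apply finsum_congr
    intro w
    rw [occ_cons]
    push_cast
    ring
  · refine (support_occ a (x :: l)).subset ?_
    intro w hw
    rw [Function.mem_support] at hw
    have h1 : alpha a w ≠ 0 := left_ne_zero_of_mul hw
    have h2 := right_ne_zero_of_mul hw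
    rw [Set.mem_setOf_eq]
    apply mul_ne_zero h1
    rw [occ_cons]
    by_cases h : w.toWord <+: x :: l
    · rw [if_pos h]
      push_cast
      positivity
    · rw [if_neg h] at h2
      exact absurd rfl h2
  · exact support_occ a l

lemma total_nil (a : X) : total a ([] : List (X × Bool)) = 0 := by
  unfold total
  rw [finsum_eq_zero_of_forall_eq_zero]
  intro w
  by_cases h : alpha a w = 0
  · rw [h, zero_mul]
  · have := length_of_alpha h
    rw [occ_nil (by intro h0; rw [h0] at this; simp at this)]
    simp

lemma total_replicate (a : X) (e : Bool) (k : ℕ) : total a (List.replicate k (a, e)) = 0 := by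
  classical
  induction k with
  | zero => exact total_nil a
  | succ k ih =>
    rw [List.replicate_succ, total_cons, ih, add_zero]
    rw [finsum_eq_zero_of_forall_eq_zero]
    intro w
    by_cases hp : w.toWord <+: (a, e) :: List.replicate k (a, e)
    · have hmem : ∀ x ∈ w.toWord, x = (a, e) := by
        intro x hx
        have := hp.subset hx
        rw [← List.replicate_succ, List.mem_replicate] at this
        exact this.2
      have : alpha a w = 0 := by
        apply coef_zero
        · rintro ⟨e', n, s, hs, hl⟩
          exact hs (by rw [hmem s (by rw [hl]; simp)])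
        · rintro ⟨e', n, s, hs, hl⟩
          exact hs (by rw [hmem s (by rw [hl]; simp)])
      rw [this, zero_mul]
    · rw [if_neg hp, mul_zero]

lemma total_replicate_append (a b : X) (hab : b ≠ a) (k : ℕ) :
    total a (List.replicate k (a, true) ++ [(b, true)]) = k := by
  classical
  induction k with
  | zero =>
    rw [List.replicate_zero, List.nil_append, total_cons, total_nil, add_zero]
    rw [finsum_eq_zero_of_forall_eq_zero]
    · simp
    · intro w
      by_cases hp : w.toWord <+: [(b, true)]
      · have h1 := hp.length_le
        have : alpha a w = 0 := by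
          by_contra h
          have h2 := length_of_alpha h
          simp only [List.length_cons, List.length_nil] at h1
          omega
        rw [this, zero_mul]
      · rw [if_neg hp, mul_zero]
  | succ k ih =>
    rw [List.replicate_succ, List.cons_append, total_cons, ih]
    set u : FreeGroup X := FreeGroup.mk (List.replicate (k + 1) (a, true) ++ [(b, true)]) with hu
    have hred : FreeGroup.IsReduced (List.replicate (k + 1) (a, true) ++ [(b, true)]) := by
      unfold FreeGroup.IsReduced
      rw [List.isChain_append]
      refine ⟨List.isChain_replicate_of_rel _ (fun _ => rfl), by simp, ?_⟩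
      intro x hx y hy
      simp only [List.head?_cons, Option.mem_def, Option.some.injEq] at hy
      have hx' : x ∈ List.replicate (k + 1) (a, true) := List.mem_of_mem_getLast? hx
      rw [List.mem_replicate] at hx'
      rw [hx'.2, ← hy]
      intro _
      rfl
    have hutw : u.toWord = List.replicate (k + 1) (a, true) ++ [(b, true)] := by
      rw [hu, FreeGroup.toWord_mk, hred.reduce_eq]
    rw [finsum_eq_single _ u]
    · rw [if_pos (by rw [hutw, List.replicate_succ, List.cons_append])]
      have : alpha a u = 1 := by
        apply coef_pos
        rw [hutw]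
        exact ⟨true, k, (b, true), hab, rfl⟩
      rw [this]
      push_cast
      ring
    · intro w hw
      by_cases hp : w.toWord <+: (a, true) :: (List.replicate k (a, true) ++ [(b, true)])
      · have : alpha a w = 0 := by
          apply coef_zero
          · rintro ⟨e', n, s, hs, hl⟩
            -- then `w` is the whole word
            obtain ⟨t, ht⟩ := hp
            rcases List.eq_nil_or_concat' t with h0 | ⟨t', z, rfl⟩
            · apply hw
              apply FreeGroup.toWord_injective
              rw [hutw]
              rw [h0, List.append_nil] at ht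
              rw [ht, List.replicate_succ, List.cons_append]
            · rw [← List.append_assoc, ← List.cons_append, ← List.replicate_succ] at ht
              have h5 := (List.append_inj' ht rfl).1
              have h6 : s ∈ List.replicate (k + 1) (a, true) := by
                rw [← h5, hl]; simp
              rw [List.mem_replicate] at h6
              exact hs (by rw [h6.2])
          · rintro ⟨e', n, s, hs, hl⟩
            rw [hl] at hp
            obtain ⟨t, ht⟩ := hp
            rw [List.cons_append, List.cons.injEq] at ht
            exact hs (by rw [ht.1])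
        rw [this, zero_mul]
      · rw [if_neg hp, mul_zero]

lemma exists_half : ∃ P : Set (FreeGroup X), IsHalf P := by
  classical
  let r : FreeGroup X → FreeGroup X → Prop := WellOrderingRel
  refine ⟨{w | NonSelfOverlapping w ∧ r w w⁻¹}, fun w hw => hw.1, fun w hw => ?_⟩
  have hne : w ≠ w⁻¹ := by
    intro h
    have h2 : w ^ 2 = 1 := by
      rw [pow_two]
      nth_rewrite 2 [h]
      exact mul_inv_cancel w
    have h3 : w ^ 2 = 1 ^ 2 := by rw [h2, one_pow]
    exact hw.1 (pow_left_injective (M := FreeGroup X) (n := 2) (by norm_num) h3)
  rcases trichotomous_of r w w⁻¹ with h | h | h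
  · left
    refine ⟨⟨hw, h⟩, fun h' => ?_⟩
    have h2 : r w⁻¹ w := by
      have := h'.2
      rwa [inv_inv] at this
    exact asymm_of r h h2
  · exact absurd h hne
  · right
    refine ⟨⟨nonself_inv hw, by rwa [inv_inv]⟩, fun h' => ?_⟩
    exact asymm_of r h h'.2

/-- For every free group of finite rank at least two there is an alternating coefficient map
supported on the non-self-overlapping words for which termwise homogenization of the infinite sum
of Brooks quasimorphisms yields a quasimorphism while the sum itself is not a quasimorphism. -/
theorem result (X : Type) [DecidableEq X] [Finite X] [Nontrivial X] :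
    ∃ α : FreeGroup X → ℝ, Alternating α ∧ SupportedOnN α ∧
      (∃ P : Set (FreeGroup X), IsHalf P) ∧
      ∀ P : Set (FreeGroup X), IsHalf P →
        IsQuasimorphism (phiTilde α P) ∧ ¬ IsQuasimorphism (phi α P) := by
  obtain ⟨a, b, hab⟩ := exists_pair_ne X
  refine ⟨alpha a, alpha_alternating a, alpha_supported a, exists_half, fun P hP => ⟨?_, ?_⟩⟩
  · refine ⟨0, fun g h => ?_⟩
    rw [phiTilde_eq_zero a hP, phiTilde_eq_zero a hP, phiTilde_eq_zero a hP]
    simp
  · rintro ⟨D, hD⟩
    obtain ⟨k, hk⟩ := exists_nat_gt D
    have h1 := hD ((FreeGroup.of a) ^ k)⁻¹ ((FreeGroup.of a) ^ k * FreeGroup.of b)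
    rw [inv_mul_cancel_left, phi_eq_total a hP, phi_eq_total a hP, phi_eq_total a hP] at h1
    have e1 : (((FreeGroup.of a) ^ k)⁻¹ : FreeGroup X).toWord = List.replicate k (a, false) := by
      rw [FreeGroup.toWord_inv, FreeGroup.toWord_of_pow]
      simp [FreeGroup.invRev]
    have e2 : ((FreeGroup.of a) ^ k * FreeGroup.of b : FreeGroup X).toWord =
        List.replicate k (a, true) ++ [(b, true)] := by
      rw [FreeGroup.toWord_mul, FreeGroup.toWord_of_pow, FreeGroup.toWord_of]
      apply FreeGroup.IsReduced.reduce_eq
      unfold FreeGroup.IsReduced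
      rw [List.isChain_append]
      refine ⟨List.isChain_replicate_of_rel _ (fun _ => rfl), by simp, ?_⟩
      intro x hx y hy
      simp only [List.head?_cons, Option.mem_def, Option.some.injEq] at hy
      have hx' : x ∈ List.replicate k (a, true) := List.mem_of_mem_getLast? hx
      rw [List.mem_replicate] at hx'
      rw [hx'.2, ← hy]
      intro _
      rfl
    have e3 : (FreeGroup.of b : FreeGroup X).toWord = List.replicate 0 (a, true) ++ [(b, true)] := by
      rw [FreeGroup.toWord_of]
      rfl
    rw [e1, e2, e3, total_replicate, total_replicate_append a b hab.symm,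
      total_replicate_append a b hab.symm] at h1
    rw [zero_add, Nat.cast_zero, sub_zero, Nat.abs_cast] at h1
    linarith

end Pool.Agent.Results.MP_c1a8be_al.TermwiseFails
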